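import Pool.Agent.SNL63.TeFin

/-!
Seven equivalent statements: (1) Q1; (2) Q1 for the joint laws at all pairs of times, together with
the elapsed time; (3) the bound of Q1 for the trajectories (all but few particles follow their sine
curves during the whole time); (4) the bound of Q1 for the mean square displacement up to the time
`t`, for every `t`; (5) for arbitrarily small `t`, the bound of Q1 for the distribution of the mean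
speeds up to the time `t` (uniform on `[-π, π]` in the limit; only the upper bound for the tails);
(6) for arbitrarily small `t`, the bound of Q1 for the truncated mean square displacement; (7) the
same for every single permutation.
-/

namespace Pool.Agent.Results.MP_a4ec54_pr.EnergyCriterion

open MeasureTheory Set
open Pool.Agent.SN8 Pool.Agent.SNL63
open scoped Real

theorem result : List.TFAE [
    (∀ U : Set (ProbabilityMeasure (ℝ × ℝ)), IsOpen U →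
      (∀ t ∈ Icc (0 : ℝ) 1, ∃ μ ∈ U, (μ : Measure (ℝ × ℝ)) = arch t) →
      ∃ c₁ > (0 : ℝ), ∃ c₂ > (0 : ℝ), ∀ n : ℕ, 2 ≤ n →
        prob n (Leaves n U) ≤ c₁ * Real.exp (-c₂ * (n : ℝ) ^ 2)),
    (∀ V : Set (ℝ × ProbabilityMeasure (ℝ × ℝ)), IsOpen V →
      (∀ t ∈ Icc (0 : ℝ) 1, ∃ μ : ProbabilityMeasure (ℝ × ℝ),
        (μ : Measure (ℝ × ℝ)) = arch t ∧ (t, μ) ∈ V) →
      ∃ c₁ > (0 : ℝ), ∃ c₂ > (0 : ℝ), ∀ n : ℕ, 2 ≤ n →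
        prob n (fun k => ∃ s t : ℝ, 0 ≤ s ∧ s ≤ t ∧ t ≤ 1 ∧
          ∀ μ : ProbabilityMeasure (ℝ × ℝ), (μ : Measure (ℝ × ℝ)) = eta2 n k s t →
            (t - s, μ) ∉ V) ≤ c₁ * Real.exp (-c₂ * (n : ℝ) ^ 2)),
    (∀ ε > (0 : ℝ), ∃ c₁ > (0 : ℝ), ∃ c₂ > (0 : ℝ), ∀ n : ℕ, 2 ≤ n →
      prob n (fun k => ε * n < supCard n k ε) ≤ c₁ * Real.exp (-c₂ * (n : ℝ) ^ 2)),
    (∀ ε > (0 : ℝ), ∀ t ∈ Ioc (0 : ℝ) 1, ∃ c₁ > (0 : ℝ), ∃ c₂ > (0 : ℝ), ∀ n : ℕ, 2 ≤ n →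
      prob n (fun k => (π ^ 2 / 3 + ε) * t ^ 2 < ∫ p, (p.1 - p.2) ^ 2 ∂(eta n k t)) ≤
        c₁ * Real.exp (-c₂ * (n : ℝ) ^ 2)),
    (∀ ε > (0 : ℝ), ∀ t₀ > (0 : ℝ), ∃ t ∈ Ioo (0 : ℝ) t₀, ∃ c₁ > (0 : ℝ), ∃ c₂ > (0 : ℝ),
      ∀ n : ℕ, 2 ≤ n →
      prob n (fun k => ∃ l : ℝ, 0 ≤ l ∧
          ENNReal.ofReal (max (1 - l / π) 0 + ε) < eta n k t {p | l * t < |p.1 - p.2|}) ≤
        c₁ * Real.exp (-c₂ * (n : ℝ) ^ 2)),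
    (∀ ε > (0 : ℝ), ∀ M > (0 : ℝ), ∀ t₀ > (0 : ℝ), ∃ t ∈ Ioo (0 : ℝ) t₀, ∃ c₁ > (0 : ℝ), ∃ c₂ > (0 : ℝ),
      ∀ n : ℕ, 2 ≤ n →
      prob n (fun k => (π ^ 2 / 3 + ε) * t ^ 2 < ∫ p, min ((p.1 - p.2) ^ 2) ((M * t) ^ 2) ∂(eta n k t)) ≤
        c₁ * Real.exp (-c₂ * (n : ℝ) ^ 2)),
    (∀ ε > (0 : ℝ), ∀ M > (0 : ℝ), ∀ t₀ > (0 : ℝ), ∃ t ∈ Ioo (0 : ℝ) t₀, ∃ c₁ > (0 : ℝ), ∃ c₂ > (0 : ℝ),
      ∀ n : ℕ, 2 ≤ n → ∀ w : ℕ → ℕ,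
      (π ^ 2 / 3 + ε) * t ^ 2 <
        (∑ x ∈ Finset.Icc 1 n, min ((2 * ((w x : ℝ) - x) / n) ^ 2) ((M * t) ^ 2)) / n →
      prob n (fun k => ∀ x ∈ Finset.Icc 1 n, place (k.take ⌊(n.choose 2 : ℝ) * t⌋₊) x = w x) ≤
        c₁ * Real.exp (-c₂ * (n : ℝ) ^ 2))] :=
  criterion2

end Pool.Agent.Results.MP_a4ec54_pr.EnergyCriterion
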