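import Pool.Agent.SNL63.Graph4

/-!
The bound of Q1, for the joint laws between all pairs of times `s ≤ t` together with the elapsed
time `t - s`, for every open set `V` of pairs (time, measure) which contains the graph of the
Archimedean path and, for every `t ∈ (0, 1)`, all the pairs `(t, ν)` with `ν` a permuton with the
properties `Adm2 t` and `∫ |x - y| log (1 + |x - y| / t) dν ≤ A t`, for an absolute constant `A`.
-/

namespace Pool.Agent.Results.MP_a4ec54_pr.Neighbourhoods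

open MeasureTheory Set
open Pool.Agent.SN8 Pool.Agent.SNL63

theorem result : ∃ A > (0 : ℝ), ∀ (V : Set (ℝ × ProbabilityMeasure (ℝ × ℝ))), IsOpen V →
    (∀ t ∈ Icc (0 : ℝ) 1, ∃ μ : ProbabilityMeasure (ℝ × ℝ),
      (μ : Measure (ℝ × ℝ)) = arch t ∧ (t, μ) ∈ V) →
    (∀ t ∈ Ioo (0 : ℝ) 1, ∀ ν : ProbabilityMeasure (ℝ × ℝ), Adm2 t (ν : Measure (ℝ × ℝ)) →
      ∫⁻ p, ENNReal.ofReal (|p.1 - p.2| * Real.log (1 + |p.1 - p.2| / t)) ∂(ν : Measure (ℝ × ℝ)) ≤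
        ENNReal.ofReal (A * t) →
      (t, ν) ∈ V) →
    ∃ c₁ > (0 : ℝ), ∃ c₂ > (0 : ℝ), ∀ n : ℕ, 2 ≤ n →
      prob n (fun k => ∃ s t : ℝ, 0 ≤ s ∧ s ≤ t ∧ t ≤ 1 ∧
        ∀ μ : ProbabilityMeasure (ℝ × ℝ), (μ : Measure (ℝ × ℝ)) = eta2 n k s t →
          (t - s, μ) ∉ V) ≤ c₁ * Real.exp (-c₂ * (n : ℝ) ^ 2) :=
  graph2_adm4

end Pool.Agent.Results.MP_a4ec54_pr.Neighbourhoods
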