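import Pool.Agent.SN8.Eta

/-!
For the uniform random sorting network of size `n`, `N = n (n - 1) / 2`, every event of the form
`there is a time t with η^n_t outside U` has the probability `0` or at least `(8 e) ^ (- N)`, for
every `n ≥ 2` and every set `U` of probability measures; and for a suitable open set `U` which
contains the whole Archimedean path the second alternative holds for all `n ≥ 100`.
-/

namespace Pool.Agent.Results.MP_a4ec54_pr.RateOptimal

open MeasureTheory Set
open Pool.Agent.SN8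

theorem result :
    (∀ n : ℕ, 2 ≤ n → ∀ U : Set (ProbabilityMeasure (ℝ × ℝ)),
      prob n (Leaves n U) = 0 ∨
        ((8 * Real.exp 1) ^ (n.choose 2))⁻¹ ≤ prob n (Leaves n U)) ∧
    (∃ U : Set (ProbabilityMeasure (ℝ × ℝ)), IsOpen U ∧
      (∀ t ∈ Icc (0:ℝ) 1, ∃ μ ∈ U, (μ : Measure (ℝ × ℝ)) = arch t) ∧
      ∀ n : ℕ, 100 ≤ n →
        ((8 * Real.exp 1) ^ (n.choose 2))⁻¹ ≤ prob n (Leaves n U)) := by
  refine ⟨fun n hn U => dichotomy hn U, U0, isOpen_U0, fun t _ => ⟨_, arch_mem_U0 t, rfl⟩, ?_⟩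
  intro n hn
  exact prob_ge (by omega) (blk_supp n (n / 10)) _ (fun k _ hP => leaves_of_blk hn hP)

end Pool.Agent.Results.MP_a4ec54_pr.RateOptimal
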