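import Pool.Agent.SNL63.SwapLD

/-!
The law of large numbers for the swap process of a random sorting network, with the speed `n ^ 2`:
for a continuous `g`, up to a probability `c₁ exp (- c₂ n ^ 2)`, simultaneously for all time windows
`(i, j]`, the sum of `g (2 k_l / n - 1)` over `i < l ≤ j` differs by at most `ε N` from `j - i`
times the integral of `g` against the semicircle density.
-/

namespace Pool.Agent.Results.MP_a4ec54_pr.SwapProcess

open MeasureTheory Set
open Pool.Agent.SN8 Pool.Agent.SNL63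
open scoped Real

theorem result (g : ℝ → ℝ) (hg : Continuous g) (ε : ℝ) (hε : 0 < ε) :
    ∃ c₁ > (0 : ℝ), ∃ c₂ > (0 : ℝ), ∀ n : ℕ, 2 ≤ n →
      prob n (fun k => ∃ i j, i ≤ j ∧ j ≤ n.choose 2 ∧ ε * (n.choose 2 : ℝ) <
        |(((k.take j).drop i).map (fun l : ℕ => g (2 * (l : ℝ) / n - 1))).sum -
          ((j : ℝ) - i) * ∫ u in (-1 : ℝ)..1, 2 / π * √(1 - u ^ 2) * g u|) ≤
      c₁ * Real.exp (-c₂ * (n : ℝ) ^ 2) := by
  have h := swap_ld hg hε
  rw [integral_semi] at h
  exact h

end Pool.Agent.Results.MP_a4ec54_pr.SwapProcess
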